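import Pool.Agent.helper25.KBR.TraceId2
import Pool.Agent.helper77.KBR3.HomZero1

/-!
# The Kähler trace identity for forms continuous up to the boundary and `C¹` inside (module E2)
-/

set_option maxSynthPendingDepth 3
noncomputable section

namespace KBR

open Set MeasureTheory Metric
open scoped ContDiff RealInnerProductSpace NNReal Topology

variable {n : ℕ}

/-- MODULE E2: the Kähler trace identity for forms which are continuous up to the boundary and
`C¹` in the interior. -/
theorem trace_identity1 (hn : 3 ≤ n) (G J B : E n → E n →L[ℝ] E n) (hK : IsAlmostKahler G J)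
    (hB : Continuous B) (hB1 : ∀ x ∈ Metric.ball (0 : E n) 1, ContDiffAt ℝ 1 B x)
    (hBs : ∀ x ∈ M n, ∀ u v, ⟪B x u, v⟫ = ⟪B x v, u⟫)
    (hBJ : ∀ x ∈ M n, ∀ u v, ⟪B x (J x u), J x v⟫ = ⟪B x u, v⟫)
    (hBc : ∀ x ∈ Metric.ball (0 : E n) 1, ∀ u v w,
      ⟪fderiv ℝ (fun y => (B y).comp (J y)) x u v, w⟫ +
      ⟪fderiv ℝ (fun y => (B y).comp (J y)) x v w, u⟫ +
      ⟪fderiv ℝ (fun y => (B y).comp (J y)) x w u, v⟫ = 0)
    (hbd : ∀ x ∈ bM n, B x = G x) :
    ∫ x in M n, Real.sqrt (G x).det * LinearMap.trace ℝ (E n)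
      (((G x).inverse.comp (B x - G x) : E n →L[ℝ] E n) : E n →ₗ[ℝ] E n) = 0 := by
  obtain ⟨N, hN⟩ : ∃ N, n = N + 3 := ⟨n - 3, by omega⟩
  set O : E n → E n →L[ℝ] E n := fun y => (G y).comp (J y) with hO
  set K : E n → E n →L[ℝ] E n := fun y => (B y).comp (J y) with hKdef
  have hGs : ContDiff ℝ 1 G := hK.metric.smooth.of_le (by exact_mod_cast le_top)
  have hJs : ContDiff ℝ 1 J := hK.smoothJ.of_le (by exact_mod_cast le_top)
  have hOs : ContDiff ℝ 1 O := hGs.clm_comp hJs
  have hKs : ∀ x ∈ ball (0 : E n) 1, ContDiffAt ℝ 1 K x := fun x hx =>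
    (hB1 x hx).clm_comp hJs.contDiffAt
  have hJJ : ∀ x ∈ M n, J x * J x = -1 := by
    intro x hx; ext1 v; simpa using hK.sq x hx v
  have hGU : ∀ x ∈ M n, IsUnit (G x) := fun x hx => D2.isUnit_of_pos _ (hK.metric.pos x hx)
  have hJU : ∀ x ∈ M n, IsUnit (J x) := by
    intro x hx
    have h := hJJ x hx
    exact ⟨⟨J x, -J x, by rw [mul_neg, h, neg_neg], by rw [neg_mul, h, neg_neg]⟩, rfl⟩
  have hOU : ∀ x ∈ M n, IsUnit (O x) := fun x hx => (hGU x hx).mul (hJU x hx)
  have hGdet : ∀ x ∈ M n, 0 < (G x).det := fun x hx => D2.det_pos_of_pos _ (hK.metric.pos x hx)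
  -- antisymmetry
  have anti : ∀ (A : E n → E n →L[ℝ] E n), (∀ x ∈ M n, ∀ u v, ⟪A x u, v⟫ = ⟪A x v, u⟫) →
      (∀ x ∈ M n, ∀ u v, ⟪A x (J x u), J x v⟫ = ⟪A x u, v⟫) →
      ∀ x ∈ M n, ∀ u v, ⟪(A x).comp (J x) u, v⟫ = -⟪(A x).comp (J x) v, u⟫ := by
    intro A hs hi x hx u v
    have h1 := hi x hx u (J x v)
    rw [hK.sq x hx v, inner_neg_right, hs x hx u (J x v)] at h1
    simp only [ContinuousLinearMap.comp_apply]
    linarith
  have hOa := anti G hK.metric.symm hK.inv
  have hKa := anti B hBs hBJ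
  set η : E n → E n →L[ℝ] E n := fun y => K y - O y with hη
  have hηs : ∀ x ∈ ball (0 : E n) 1, ContDiffAt ℝ 1 η x := fun x hx =>
    (hKs x hx).sub hOs.contDiffAt
  have hηcont : Continuous η := (hB.clm_comp hJs.continuous).sub hOs.continuous
  have hηa : ∀ x ∈ M n, ∀ u v, ⟪η x u, v⟫ = -⟪η x v, u⟫ := by
    intro x hx u v
    have h1 := hOa x hx u v
    have h2 := hKa x hx u v
    simp only [hη, sub_apply, inner_sub_left, hO, hKdef]
    linarith
  have hbM : ball (0 : E n) 1 ⊆ M n := ball_subset_closedBall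
  have hηd : ∀ x ∈ ball (0 : E n) 1, fderiv ℝ η x = fderiv ℝ K x - fderiv ℝ O x := by
    intro x hx
    exact fderiv_sub ((hKs x hx).differentiableAt (by simp))
      (hOs.differentiable (by simp)).differentiableAt
  have hηc : ∀ x ∈ ball (0 : E n) 1, ∀ u v w, ⟪fderiv ℝ η x u v, w⟫ + ⟪fderiv ℝ η x v w, u⟫ +
      ⟪fderiv ℝ η x w u, v⟫ = 0 := by
    intro x hx u v w
    have h1 := hBc x hx u v w
    have h2 := hK.closed x (hbM hx) u v w
    rw [hηd x hx]
    simp only [sub_apply, inner_sub_left]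
    linarith
  have hη0 : ∀ x ∈ sphere (0 : E n) 1, η x = 0 := by
    intro x hx
    simp only [hη, hKdef, hO, hbd x hx, sub_self]
  have hmain := E2.homotopy_zero1 N hN (D2.Wf G O) η
    (fun x hx => D2.contDiffAt_Wf G O x hGs.contDiffAt hOs.contDiffAt (hGdet x hx) (hOU x hx))
    hηcont.continuousOn hηs
    (by
      intro x hx u v
      have h1 := D2.inverse_antisymm (O x) (hOU x (hbM hx)) (hOa x (hbM hx)) u v
      simp only [D2.Wf, smul_apply, real_inner_smul_left]
      rw [h1]; ring)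
    (by
      intro x hx u v w
      exact D2.fderiv_antisymm η x hx ((hηs x hx).differentiableAt (by simp))
        (fun y hy => hηa y (hbM hy)) u v w)
    (by
      intro x hx v
      refine D2.div_Wf G O x hGs.contDiffAt hOs.contDiffAt (hGdet x (hbM hx)) (hOU x (hbM hx))
        ?_ (hOa x (hbM hx)) ?_ (hK.closed x (hbM hx)) v
      · filter_upwards [isOpen_ball.mem_nhds hx] with y hy
        refine ⟨hGdet y (hbM hy), ?_⟩
        have h1 : (O y).det = (G y).det * (J y).det := D2.det_mul _ _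
        have h2 := D2.det_sq_of_sq (J y) (hJJ y (hbM hy))
        rw [h1, mul_pow, h2, mul_one]
      · exact D2.fderiv_antisymm O x hx (hOs.differentiable (by simp)).differentiableAt
          (fun y hy => hOa y (hbM hy)))
    hηc
    hη0
  -- compare the integrands
  have hpt : ∀ x ∈ M n, Real.sqrt (G x).det * LinearMap.trace ℝ (E n)
      (((G x).inverse.comp (B x - G x) : E n →L[ℝ] E n) : E n →ₗ[ℝ] E n) =
      - D2.hsL n (D2.Wf G O x) (η x) := by
    intro x hx
    set P := Ring.inverse (O x) with hP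
    have hOP : G x * J x * P = 1 := Ring.mul_inverse_cancel _ (hOU x hx)
    have hGinv : (G x).inverse = J x * P := by
      rw [← ContinuousLinearMap.ringInverse_eq_inverse]
      have h1 := Ring.inverse_mul_cancel _ (hGU x hx)
      calc Ring.inverse (G x) = Ring.inverse (G x) * (G x * J x * P) := by rw [hOP, mul_one]
        _ = (Ring.inverse (G x) * G x) * (J x * P) := by simp only [mul_assoc]
        _ = J x * P := by rw [h1, one_mul]
    have htr : LinearMap.trace ℝ (E n)
      (((G x).inverse.comp (B x - G x) : E n →L[ℝ] E n) : E n →ₗ[ℝ] E n) =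
      LinearMap.trace ℝ (E n) ((P * η x : E n →L[ℝ] E n) : E n →ₗ[ℝ] E n) := by
      have h1 : (((G x).inverse.comp (B x - G x) : E n →L[ℝ] E n) : E n →ₗ[ℝ] E n) =
          (J x : E n →ₗ[ℝ] E n) * ((P * (B x - G x) : E n →L[ℝ] E n) : E n →ₗ[ℝ] E n) := by
        rw [hGinv]; rfl
      have h2 : ((P * η x : E n →L[ℝ] E n) : E n →ₗ[ℝ] E n) =
          ((P * (B x - G x) : E n →L[ℝ] E n) : E n →ₗ[ℝ] E n) * (J x : E n →ₗ[ℝ] E n) := by
        have : η x = (B x - G x) * J x := by
          simp only [hη, hKdef, hO, sub_mul]; rfl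
        rw [this, ← mul_assoc]; rfl
      rw [h1, h2, LinearMap.trace_mul_comm]
    rw [htr, D2.trace_eq, D2.hsL_apply, ← Finset.sum_neg_distrib, Finset.mul_sum]
    refine Finset.sum_congr rfl fun k _ => ?_
    have h1 := D2.inverse_antisymm (O x) (hOU x hx) (hOa x hx) (η x (D2.e n k)) (D2.e n k)
    simp only [D2.Wf, smul_apply, real_inner_smul_left]
    rw [← hP] at h1 ⊢
    have h2 : (P * η x) (D2.e n k) = P (η x (D2.e n k)) := rfl
    rw [h2, h1]
    ring
  have hae : (ball (0 : E n) 1) =ᵐ[volume] M n := by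
    refine ae_eq_set.2 ⟨?_, ?_⟩
    · rw [sdiff_eq_empty.2 hbM]; simp
    · have : M n \ ball (0 : E n) 1 = sphere (0 : E n) 1 := closedBall_sdiff_ball
      rw [this]
      exact Measure.addHaar_sphere_of_ne_zero _ _ one_ne_zero
  have hMm : MeasurableSet (M n) := measurableSet_closedBall
  rw [setIntegral_congr_fun hMm hpt, ← setIntegral_congr_set hae,
    integral_neg, hmain, neg_zero]

end KBR
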