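import Pool.Agent.helper25.KBR.HomZero

/-!
# Stokes for vector fields which are `C¹` inside the ball, continuous on the closed ball, zero on
the sphere and have bounded divergence
-/

set_option maxSynthPendingDepth 3
noncomputable section

namespace KBR.E2

open Set MeasureTheory Metric Filter Topology
open scoped ContDiff RealInnerProductSpace NNReal

variable {n : ℕ}

lemma exists_deriv_bound : ∃ D : ℝ, 0 ≤ D ∧ ∀ s, |deriv Real.smoothTransition s| ≤ D := by
  have hc : Continuous (deriv Real.smoothTransition) :=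
    (Real.smoothTransition.contDiff (n := 1)).continuous_deriv le_rfl
  obtain ⟨D, hD⟩ := (isCompact_Icc (a := (0 : ℝ)) (b := 1)).exists_bound_of_continuousOn
    hc.continuousOn
  refine ⟨max D 0, le_max_right _ _, fun s => ?_⟩
  by_cases h0 : s < 0
  · have h1 : Real.smoothTransition =ᶠ[𝓝 s] fun _ => (0 : ℝ) := by
      filter_upwards [Iio_mem_nhds h0] with t ht
      exact Real.smoothTransition.zero_of_nonpos (le_of_lt ht)
    rw [h1.deriv_eq]; simp
  · by_cases h1 : 1 < s
    · have h2 : Real.smoothTransition =ᶠ[𝓝 s] fun _ => (1 : ℝ) := by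
        filter_upwards [Ioi_mem_nhds h1] with t ht
        exact Real.smoothTransition.one_of_one_le (le_of_lt ht)
      rw [h2.deriv_eq]; simp
    · exact (hD s ⟨not_lt.1 h0, not_lt.1 h1⟩).trans (le_max_left _ _)

lemma deriv_eq_zero_of {s : ℝ} (h : s < 0 ∨ 1 < s) : deriv Real.smoothTransition s = 0 := by
  rcases h with h | h
  · have h1 : Real.smoothTransition =ᶠ[𝓝 s] fun _ => (0 : ℝ) := by
      filter_upwards [Iio_mem_nhds h] with t ht
      exact Real.smoothTransition.zero_of_nonpos (le_of_lt ht)
    rw [h1.deriv_eq]; simp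
  · have h2 : Real.smoothTransition =ᶠ[𝓝 s] fun _ => (1 : ℝ) := by
      filter_upwards [Ioi_mem_nhds h] with t ht
      exact Real.smoothTransition.one_of_one_le (le_of_lt ht)
    rw [h2.deriv_eq]; simp

/-- the cutoff -/
def th (h : ℝ) (x : E n) : ℝ := Real.smoothTransition ((1 - ‖x‖ ^ 2) / h - 1)

/-- its derivative -/
def dth (h : ℝ) (x : E n) : E n →L[ℝ] ℝ :=
  (deriv Real.smoothTransition ((1 - ‖x‖ ^ 2) / h - 1) * (-(2 / h))) • innerSL ℝ x

lemma hasFDerivAt_th (h : ℝ) (x : E n) : HasFDerivAt (th h) (dth h x) x := by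
  have h1 : HasFDerivAt (fun y : E n => ‖y‖ ^ 2) (2 • innerSL ℝ x) x :=
    (hasStrictFDerivAt_norm_sq x).hasFDerivAt
  have h2 : HasFDerivAt (fun y : E n => (1 - ‖y‖ ^ 2) / h - 1)
      ((-(2 / h)) • innerSL ℝ x) x := by
    have h3 := ((h1.const_sub 1).mul_const h⁻¹).sub_const 1
    refine (h3.congr_of_eventuallyEq (Eventually.of_forall fun y => ?_)).congr_fderiv ?_
    · simp [div_eq_mul_inv]
    · ext v
      simp
      ring
  have h4 : HasDerivAt Real.smoothTransition
      (deriv Real.smoothTransition ((1 - ‖x‖ ^ 2) / h - 1)) ((1 - ‖x‖ ^ 2) / h - 1) :=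
    ((Real.smoothTransition.contDiff (n := 1)).differentiable one_ne_zero _).hasDerivAt
  have h5 := h4.comp_hasFDerivAt x h2
  refine h5.congr_fderiv ?_
  ext v
  simp [dth, mul_assoc]

lemma continuous_th (h : ℝ) : Continuous (th (n := n) h) := by
  unfold th
  exact Real.smoothTransition.continuous.comp (by fun_prop)

lemma continuous_dth (h : ℝ) : Continuous (dth (n := n) h) := by
  have hc : Continuous (deriv Real.smoothTransition) :=
    (Real.smoothTransition.contDiff (n := 1)).continuous_deriv le_rfl
  unfold dth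
  have h1 : Continuous fun x : E n => (1 - ‖x‖ ^ 2) / h - 1 := by fun_prop
  exact ((hc.comp h1).mul continuous_const).smul (innerSL ℝ).continuous

lemma th_abs_le (h : ℝ) (x : E n) : |th h x| ≤ 1 := by
  rw [th, abs_of_nonneg (Real.smoothTransition.nonneg _)]
  exact Real.smoothTransition.le_one _

lemma th_eq_zero {h : ℝ} (hh : 0 < h) {x : E n} (hx : 1 - h ≤ ‖x‖ ^ 2) : th h x = 0 := by
  apply Real.smoothTransition.zero_of_nonpos
  have : (1 - ‖x‖ ^ 2) / h ≤ 1 := by rw [div_le_one hh]; linarith
  linarith

lemma dth_eq_zero {h : ℝ} (hh : 0 < h) {x : E n} (hx : 1 - h < ‖x‖ ^ 2) : dth h x = 0 := by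
  have h1 : (1 - ‖x‖ ^ 2) / h < 1 := by rw [div_lt_one hh]; linarith
  rw [dth, deriv_eq_zero_of (Or.inl (by linarith)), zero_mul, zero_smul]

lemma dth_eq_zero' {h : ℝ} (hh : 0 < h) {x : E n} (hx : ‖x‖ ^ 2 < 1 - 2 * h) : dth h x = 0 := by
  have h1 : 2 < (1 - ‖x‖ ^ 2) / h := by rw [lt_div_iff₀ hh]; linarith
  rw [dth, deriv_eq_zero_of (Or.inr (by linarith)), zero_mul, zero_smul]

lemma dth_norm_le {D : ℝ} (hD : ∀ s, |deriv Real.smoothTransition s| ≤ D) {h : ℝ} (hh : 0 < h)
    {x : E n} (hx : ‖x‖ ≤ 1) : ‖dth h x‖ ≤ D * (2 / h) := by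
  have h2 : 0 < 2 / h := by positivity
  have hD0 : 0 ≤ D := (abs_nonneg _).trans (hD 0)
  rw [dth, norm_smul, innerSL_apply_norm, Real.norm_eq_abs, abs_mul, abs_neg, abs_of_pos h2]
  calc |deriv Real.smoothTransition ((1 - ‖x‖ ^ 2) / h - 1)| * (2 / h) * ‖x‖
      ≤ D * (2 / h) * 1 := by
        gcongr
        exact hD _
    _ = D * (2 / h) := mul_one _

/-- volume of the shell -/
lemma shell_vol {δ : ℝ} (h0 : 0 ≤ δ) (h1 : δ < 1) :
    volume.real ((closedBall (0 : E n) 1) \ ball (0 : E n) (1 - δ)) ≤
      n * δ * volume.real (ball (0 : E n) 1) := by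
  rw [measureReal_sdiff (ball_subset_closedBall.trans (closedBall_subset_closedBall (by linarith)))
    measurableSet_ball (measure_closedBall_lt_top.ne)]
  have h2 : volume.real (closedBall (0 : E n) 1) = volume.real (ball (0 : E n) 1) := by
    have := Measure.addHaar_closedBall (volume : Measure (E n)) (0 : E n) (r := 1) zero_le_one
    rw [measureReal_def, this, measureReal_def]
    simp
  have h3 : volume.real (ball (0 : E n) (1 - δ)) = (1 - δ) ^ n * volume.real (ball (0 : E n) 1) := by
    have := Measure.addHaar_ball_of_pos (volume : Measure (E n)) (0 : E n) (r := 1 - δ)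
      (by linarith)
    rw [measureReal_def, this, measureReal_def, ENNReal.toReal_mul, ENNReal.toReal_ofReal
      (by have : 0 ≤ 1 - δ := by linarith
          positivity)]
    simp
  rw [h2, h3]
  have h4 : 1 - n * δ ≤ (1 - δ) ^ n := by
    have := one_add_mul_le_pow (a := -δ) (by linarith) n
    calc 1 - n * δ = 1 + n * -δ := by ring
      _ ≤ (1 + -δ) ^ n := this
      _ = (1 - δ) ^ n := by ring
  have h5 : 0 ≤ volume.real (ball (0 : E n) 1) := measureReal_nonneg
  nlinarith

/-- a continuous map on the closed ball vanishing on the sphere is small near the sphere -/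
lemma small_near {V : E n → E n} (hc : ContinuousOn V (closedBall 0 1))
    (h0 : ∀ x ∈ sphere (0 : E n) 1, V x = 0) {ε : ℝ} (hε : 0 < ε) :
    ∃ δ : ℝ, 0 < δ ∧ δ < 1 ∧ ∀ x ∈ closedBall (0 : E n) 1, 1 - δ ≤ ‖x‖ → ‖V x‖ ≤ ε := by
  have hu := (isCompact_closedBall (0 : E n) 1).uniformContinuousOn_of_continuous hc
  obtain ⟨δ, hδ, h⟩ := Metric.uniformContinuousOn_iff.1 hu ε hε
  refine ⟨min (δ / 2) (1 / 2), by positivity, by
    exact lt_of_le_of_lt (min_le_right _ _) (by norm_num), fun x hx hxn => ?_⟩
  have h1 : 1 / 2 ≤ ‖x‖ := by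
    have := min_le_right (δ / 2) (1 / 2 : ℝ)
    linarith
  have h2 : 1 - δ / 2 ≤ ‖x‖ := by
    have := min_le_left (δ / 2) (1 / 2 : ℝ)
    linarith
  have hx1 : ‖x‖ ≤ 1 := by simpa using hx
  set y : E n := ‖x‖⁻¹ • x with hy
  have hyn : ‖y‖ = 1 := by
    rw [hy, norm_smul, norm_inv, norm_norm, inv_mul_cancel₀ (by linarith)]
  have hd : dist x y < δ := by
    have h3 : x - y = (1 - ‖x‖⁻¹) • x := by rw [hy, sub_smul, one_smul]
    rw [dist_eq_norm, h3, norm_smul, Real.norm_eq_abs]
    have h4 : 1 ≤ ‖x‖⁻¹ := one_le_inv₀ (by linarith) |>.2 hx1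
    rw [abs_of_nonpos (by linarith)]
    have h5 : -(1 - ‖x‖⁻¹) * ‖x‖ = 1 - ‖x‖ := by
      field_simp
      ring
    rw [h5]
    linarith
  have h6 := h x hx y (by simp [hyn]) hd
  rw [h0 y (by simp [hyn]), dist_zero_right] at h6
  exact h6.le

theorem stokesV1 (V : E n → E n) (V' : E n → E n →L[ℝ] E n) {C : ℝ}
    (hd : ∀ x ∈ ball (0 : E n) 1, HasFDerivAt V (V' x) x)
    (hV'c : ContinuousOn V' (ball (0 : E n) 1))
    (hb : ∀ x ∈ ball (0 : E n) 1, |∑ k, ⟪V' x (D2.e n k), D2.e n k⟫| ≤ C)
    (hc : ContinuousOn V (closedBall 0 1))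
    (h0 : ∀ x ∈ sphere (0 : E n) 1, V x = 0) :
    ∫ x in ball (0 : E n) 1, ∑ k, ⟪V' x (D2.e n k), D2.e n k⟫ = 0 := by
  obtain ⟨D, hD0, hD⟩ := exists_deriv_bound
  have hfin : IsFiniteMeasure ((volume : Measure (E n)).restrict (ball (0 : E n) 1)) :=
    ⟨by rw [Measure.restrict_apply_univ]; exact measure_ball_lt_top⟩
  have hae : ∀ᵐ x ∂((volume : Measure (E n)).restrict (ball (0 : E n) 1)),
      x ∈ ball (0 : E n) 1 := ae_restrict_mem measurableSet_ball
  set dv : E n → ℝ := fun x => ∑ k, ⟪V' x (D2.e n k), D2.e n k⟫ with hdv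
  have hdvc : ContinuousOn dv (ball (0 : E n) 1) := by
    refine continuousOn_finsetSum _ fun k _ => ?_
    exact (hV'c.clm_apply continuousOn_const).inner continuousOn_const
  have hcb : ContinuousOn V (ball (0 : E n) 1) := hc.mono ball_subset_closedBall
  obtain ⟨CV, hCV⟩ := (isCompact_closedBall (0 : E n) 1).exists_bound_of_continuousOn hc
  have hCV0 : 0 ≤ CV := (norm_nonneg _).trans (hCV 0 (by simp))
  -- the identity for the cut off field
  have key : ∀ h : ℝ, 0 < h → h ≤ 1 / 4 →
      ∫ x in ball (0 : E n) 1, th h x * dv x = - ∫ x in ball (0 : E n) 1, dth h x (V x) := by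
    intro h hh hh4
    set V2 : E n → E n →L[ℝ] E n := fun x => th h x • V' x + (dth h x).smulRight (V x) with hV2
    have hρ : closedBall (0 : E n) (1 - h / 2) ⊆ ball (0 : E n) 1 :=
      closedBall_subset_ball (by linarith)
    obtain ⟨C1, hC1⟩ := (isCompact_closedBall (0 : E n) (1 - h / 2)).exists_bound_of_continuousOn
      (hV'c.mono hρ)
    have hC10 : 0 ≤ C1 := (norm_nonneg _).trans (hC1 0 (by simp; linarith))
    have hbound : ∀ x ∈ ball (0 : E n) 1, ‖V2 x‖ ≤ C1 + D * (2 / h) * CV := by
      intro x hx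
      have hx1 : ‖x‖ ≤ 1 := by
        have := mem_ball_zero_iff.1 hx
        exact this.le
      have hnn : 0 ≤ C1 + D * (2 / h) * CV := by positivity
      by_cases hxs : x ∈ closedBall (0 : E n) (1 - h / 2)
      · refine (norm_add_le _ _).trans ?_
        have a1 : ‖th h x • V' x‖ ≤ C1 := by
          rw [norm_smul, Real.norm_eq_abs]
          calc |th h x| * ‖V' x‖ ≤ 1 * C1 := by
                gcongr
                · exact th_abs_le h x
                · exact hC1 x hxs
            _ = C1 := one_mul _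
        have a2 : ‖(dth h x).smulRight (V x)‖ ≤ D * (2 / h) * CV := by
          rw [ContinuousLinearMap.norm_smulRight_apply]
          gcongr
          · exact dth_norm_le hD hh hx1
          · exact hCV x (ball_subset_closedBall hx)
        linarith
      · have hxn : 1 - h / 2 < ‖x‖ := by simpa using hxs
        have hsq : 1 - h < ‖x‖ ^ 2 := by nlinarith
        have : V2 x = 0 := by
          simp only [hV2]
          rw [th_eq_zero hh hsq.le, dth_eq_zero hh hsq]
          ext v
          simp
        rw [this, norm_zero]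
        exact hnn
    have hst := D2.stokesV (fun x => th h x • V x) V2 (C := C1 + D * (2 / h) * CV)
      (fun x hx => (hasFDerivAt_th h x).smul (hd x hx))
      (by
        refine ContinuousOn.add ((continuous_th h).continuousOn.smul hV'c) ?_
        have : ContinuousOn (fun x : E n =>
            (ContinuousLinearMap.smulRightL ℝ (E n) (E n) (dth h x)) (V x)) (ball (0 : E n) 1) :=
          ((ContinuousLinearMap.smulRightL ℝ (E n) (E n)).continuous.comp
            (continuous_dth h)).continuousOn.clm_apply hcb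
        exact this)
      hbound ((continuous_th h).continuousOn.smul hc)
      (fun x hx => by simp [h0 x hx])
    have hpt : ∀ x ∈ ball (0 : E n) 1, ∑ k, ⟪V2 x (D2.e n k), D2.e n k⟫ =
        th h x * dv x + dth h x (V x) := by
      intro x _
      have : ∀ k, ⟪V2 x (D2.e n k), D2.e n k⟫ = th h x * ⟪V' x (D2.e n k), D2.e n k⟫ +
          ⟪V x, D2.e n k⟫ * dth h x (D2.e n k) := by
        intro k
        simp only [hV2, add_apply, smul_apply, ContinuousLinearMap.smulRight_apply,
          inner_add_left, real_inner_smul_left]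
        ring
      simp_rw [this, Finset.sum_add_distrib, ← Finset.mul_sum]
      rw [D2.sum_lin]
    rw [setIntegral_congr_fun measurableSet_ball hpt, integral_add] at hst
    · linarith
    · refine Integrable.of_bound (((continuous_th h).continuousOn.mul hdvc).aestronglyMeasurable
        measurableSet_ball) (1 * C) ?_
      filter_upwards [hae] with x hx
      rw [Real.norm_eq_abs, abs_mul]
      gcongr
      · exact th_abs_le h x
      · exact hb x hx
    · refine Integrable.of_bound (((continuous_dth h).continuousOn.clm_apply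
        hcb).aestronglyMeasurable measurableSet_ball) (D * (2 / h) * CV) ?_
      filter_upwards [hae] with x hx
      refine ((dth h x).le_opNorm _).trans ?_
      gcongr
      · exact dth_norm_le hD hh (mem_ball_zero_iff.1 hx).le
      · exact hCV x (ball_subset_closedBall hx)
  -- the limit
  set hs : ℕ → ℝ := fun j => 1 / ((j : ℝ) + 4) with hhs
  have hs0 : ∀ j, 0 < hs j := fun j => by positivity
  have hs4 : ∀ j, hs j ≤ 1 / 4 := fun j => by
    simp only [hhs]
    apply one_div_le_one_div_of_le (by norm_num)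
    have : (0 : ℝ) ≤ j := Nat.cast_nonneg j
    linarith
  have hslim : Tendsto hs atTop (𝓝 0) := by
    have h1 : Tendsto (fun j : ℕ => (j : ℝ) + 4) atTop atTop :=
      tendsto_atTop_add_const_right _ _ tendsto_natCast_atTop_atTop
    refine h1.inv_tendsto_atTop.congr fun j => ?_
    simp [hhs]
  have lim1 : Tendsto (fun j => ∫ x in ball (0 : E n) 1, th (hs j) x * dv x) atTop
      (𝓝 (∫ x in ball (0 : E n) 1, dv x)) := by
    refine tendsto_integral_of_dominated_convergence (fun _ => 1 * C) ?_ (integrable_const _) ?_ ?_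
    · intro j
      exact ((continuous_th (hs j)).continuousOn.mul hdvc).aestronglyMeasurable measurableSet_ball
    · intro j
      filter_upwards [hae] with x hx
      rw [Real.norm_eq_abs, abs_mul]
      gcongr
      · exact th_abs_le _ x
      · exact hb x hx
    · filter_upwards [hae] with x hx
      have hx1 : ‖x‖ ^ 2 < 1 := by
        have h1 := mem_ball_zero_iff.1 hx
        have h2 := norm_nonneg x
        nlinarith
      have hev : ∀ᶠ j in atTop, hs j < (1 - ‖x‖ ^ 2) / 2 :=
        hslim.eventually_lt_const (by linarith)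
      refine tendsto_const_nhds.congr' ?_
      filter_upwards [hev] with j hj
      have h3 : th (hs j) x = 1 := by
        apply Real.smoothTransition.one_of_one_le
        have : 2 ≤ (1 - ‖x‖ ^ 2) / hs j := by rw [le_div_iff₀ (hs0 j)]; linarith
        linarith
      rw [h3, one_mul]
  have lim2 : Tendsto (fun j => ∫ x in ball (0 : E n) 1, dth (hs j) x (V x)) atTop (𝓝 0) := by
    rw [Metric.tendsto_atTop]
    intro ε hε
    set K : ℝ := D * 2 * (n * 2 * volume.real (ball (0 : E n) 1)) with hK
    have hK0 : 0 ≤ K := by positivity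
    obtain ⟨δ, hδ, hδ1, hsm⟩ := small_near hc h0 (ε := ε / (2 * (K + 1))) (by positivity)
    have hev : ∀ᶠ j in atTop, hs j < δ / 2 := hslim.eventually_lt_const (by linarith)
    obtain ⟨J, hJ⟩ := eventually_atTop.1 hev
    refine ⟨J, fun j hj => ?_⟩
    have hjδ := hJ j hj
    have hj0 := hs0 j
    have hj4 := hs4 j
    rw [dist_zero_right]
    set h := hs j with hh
    set S : Set (E n) := closedBall (0 : E n) 1 \ ball (0 : E n) (1 - 2 * h) with hS
    have hSm : MeasurableSet S := measurableSet_closedBall.diff measurableSet_ball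
    have hSf : volume S < ⊤ := lt_of_le_of_lt (measure_mono sdiff_subset) measure_closedBall_lt_top
    have e1 : ∫ x in ball (0 : E n) 1, dth h x (V x) =
        ∫ x in ball (0 : E n) 1 ∩ S, dth h x (V x) := by
      rw [← integral_indicator measurableSet_ball,
        ← integral_indicator (measurableSet_ball.inter hSm)]
      congr 1
      ext x
      by_cases hx : x ∈ ball (0 : E n) 1
      · by_cases hxS : x ∈ S
        · rw [indicator_of_mem hx,
            indicator_of_mem (show x ∈ ball (0 : E n) 1 ∩ S from ⟨hx, hxS⟩)]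
        · rw [indicator_of_mem hx, indicator_of_notMem (fun hh => hxS hh.2)]
          have h1 : ‖x‖ < 1 - 2 * h := by
            by_contra hcon
            apply hxS
            refine ⟨ball_subset_closedBall hx, ?_⟩
            rw [mem_ball_zero_iff]
            exact hcon
          have h2 := norm_nonneg x
          have h3 : ‖x‖ ^ 2 < 1 - 2 * h := by nlinarith
          rw [dth_eq_zero' hj0 h3]
          simp
      · rw [indicator_of_notMem hx, indicator_of_notMem (fun hh => hx hh.1)]
    rw [e1]
    have hSf' : volume (ball (0 : E n) 1 ∩ S) < ⊤ :=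
      lt_of_le_of_lt (measure_mono inter_subset_right) hSf
    have e2 := norm_setIntegral_le_of_norm_le_const (μ := (volume : Measure (E n)))
      (f := fun x => dth h x (V x)) (s := ball (0 : E n) 1 ∩ S)
      (C := D * (2 / h) * (ε / (2 * (K + 1)))) hSf'
      (fun x hx => by
        refine ((dth h x).le_opNorm _).trans ?_
        have hx1 : ‖x‖ ≤ 1 := (mem_ball_zero_iff.1 hx.1).le
        have hx2 : 1 - 2 * h ≤ ‖x‖ := by
          have := hx.2.2
          rw [mem_ball_zero_iff, not_lt] at this
          exact this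
        have b1 := dth_norm_le hD hj0 hx1
        have b2 := hsm x (ball_subset_closedBall hx.1) (by linarith)
        gcongr)
    have e3 : volume.real (ball (0 : E n) 1 ∩ S) ≤ n * (2 * h) * volume.real (ball (0 : E n) 1) :=
      (measureReal_mono inter_subset_right hSf.ne).trans (shell_vol (by linarith) (by linarith))
    have e4 : D * (2 / h) * (ε / (2 * (K + 1))) * volume.real (ball (0 : E n) 1 ∩ S) ≤
        D * (2 / h) * (ε / (2 * (K + 1))) * (n * (2 * h) * volume.real (ball (0 : E n) 1)) := by
      gcongr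
    have e5 : D * (2 / h) * (ε / (2 * (K + 1))) * (n * (2 * h) * volume.real (ball (0 : E n) 1)) =
        K * (ε / (2 * (K + 1))) := by
      rw [hK]
      field_simp
    have e6 : K * (ε / (2 * (K + 1))) < ε := by
      have h1 : K * (ε / (2 * (K + 1))) = ε * (K / (2 * (K + 1))) := by ring
      have h2 : K / (2 * (K + 1)) < 1 := by
        rw [div_lt_one (by positivity)]
        linarith
      rw [h1]
      exact mul_lt_of_lt_one_right hε h2
    calc _ ≤ _ := e2
      _ ≤ _ := e4
      _ = _ := e5
      _ < ε := e6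
  have lim3 : Tendsto (fun j => ∫ x in ball (0 : E n) 1, th (hs j) x * dv x) atTop (𝓝 0) := by
    have : (fun j => ∫ x in ball (0 : E n) 1, th (hs j) x * dv x) =
        fun j => - ∫ x in ball (0 : E n) 1, dth (hs j) x (V x) :=
      funext fun j => key (hs j) (hs0 j) (hs4 j)
    rw [this]
    simpa using lim2.neg
  exact tendsto_nhds_unique lim1 lim3

end KBR.E2
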